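import Mathlib
import Pool.Agent.Lib.MP_9d4c03_ag.Glue

set_option autoImplicit false

namespace Pool.Agent.Results.MP_9d4c03_ag.PairingNondegenerate

open Pool.Agent.Lib.MP_9d4c03_ag

/-- For every cone `C` spanned by degree one lattice points `v_i` and every point `w` of the
interior in general position, at all points `x₀` off a hypersurface, on all small polydiscs around
`x₀` and for every parameter `β`, the pairing between the solutions of `bbGKZ(C, β)` and of
`bbGKZ(C°, -β)` is nondegenerate on both sides. -/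
theorem result (r n : ℕ) (v : Fin n → Fin r → ℤ) (deg : (Fin r → ℤ) →ₗ[ℤ] ℤ)
    (hdeg : ∀ i, deg (v i) = 1) (w : Fin r → ℝ) (hw : w ∈ interior (coneOn v Finset.univ))
    (hg : GeneralPosition v w) :
    ∃ E : MvPolynomial (Fin n) ℂ, E ≠ 0 ∧ ∀ x₀ : Fin n → ℂ, MvPolynomial.eval x₀ E ≠ 0 →
      ∃ ρ₀ : ℝ, 0 < ρ₀ ∧ ∀ ρ : ℝ, 0 < ρ → ρ ≤ ρ₀ → ∀ β : Fin r → ℂ,
        (∀ Φ, IsSolution v (coneOn v Finset.univ) β (Metric.ball x₀ ρ) Φ →
          (∀ Ψ, IsSolution v (interior (coneOn v Finset.univ)) (-β) (Metric.ball x₀ ρ) Ψ →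
            pairing v deg w Φ Ψ x₀ = 0) →
          VanishesOn (coneOn v Finset.univ) (Metric.ball x₀ ρ) Φ) ∧
        ∀ Ψ, IsSolution v (interior (coneOn v Finset.univ)) (-β) (Metric.ball x₀ ρ) Ψ →
          (∀ Φ, IsSolution v (coneOn v Finset.univ) β (Metric.ball x₀ ρ) Φ →
            pairing v deg w Φ Ψ x₀ = 0) →
          VanishesOn (interior (coneOn v Finset.univ)) (Metric.ball x₀ ρ) Ψ :=
  main hdeg hw hg

end Pool.Agent.Results.MP_9d4c03_ag.PairingNondegenerate
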